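import Mathlib
import Pool.Agent.N750.Sch
import Pool.Agent.R405.ProjH

/-!
Gelfond's lower bound: if `g` is an algebraic number of modulus one that is not a root of unity,
then `|g ^ n - 1| ≥ exp (-ε n)` for all large `n`.
-/

set_option autoImplicit false
set_option linter.unusedSectionVars false

open Finset Filter Topology

namespace Pool.Agent.T9h89.GB

open NumberField IsDedekindDomain Height Module
open Pool.Agent.W180.OP (Pl av wt nrm le_nrm nrm_pos fv_support_finite)

variable {K : Type} [Field K] [NumberField K]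

/-- the product formula over a large set of places -/
theorem sum_log_eq_zero (a : K) (ha : a ≠ 0) (T : Finset (HeightOneSpectrum (𝓞 K)))
    (hT : ∀ v, v ∉ T → Pool.Agent.W180.OP.fv v a = 1) :
    ∑ w : InfinitePlace K, (w.mult : ℝ) * Real.log (w a) +
      ∑ v ∈ T, Real.log (Pool.Agent.W180.OP.fv v a) = 0 := by
  have hn : ∀ f : AbsoluteValue K ℝ, nrm f (fun _ : Fin 1 => a) = f a := fun f => by
    unfold nrm
    exact ciSup_const
  have h := Pool.Agent.R405.logHeight_sum (fun _ : Fin 1 => a)
    (fun h => ha (congrFun h 0)) T (fun v hv => by rw [hn]; exact hT v hv)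
  rw [logHeight_eq_zero_of_subsingleton] at h
  simp only [hn] at h
  exact h.symm

/-- the height of a power of a number that is not a root of unity -/
theorem height_pos (a : K) (h0 : a ≠ 0) (ha : ∀ n : ℕ, 0 < n → a ^ n ≠ 1) : 0 < logHeight₁ a := by
  refine lt_of_le_of_ne (zero_le_logHeight₁ a) fun h => ?_
  have hfin := finite_setOfPred_logHeight₁_le (K := K) 0
  have hinj : Function.Injective fun n : ℕ => a ^ n := by
    intro m n hmn
    by_contra hne
    rcases lt_or_gt_of_ne hne with hlt | hlt
    · apply ha (n - m) (by omega)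
      have h1 : a ^ n = a ^ m * a ^ (n - m) := by rw [← pow_add]; congr 1; omega
      have h2 : a ^ m = a ^ n := hmn
      rw [h2, ] at h1
      have h3 : a ^ n * 1 = a ^ n * a ^ (n - m) := by rw [mul_one]; exact h1
      exact (mul_left_cancel₀ (pow_ne_zero n h0) h3).symm
    · apply ha (m - n) (by omega)
      have h1 : a ^ m = a ^ n * a ^ (m - n) := by rw [← pow_add]; congr 1; omega
      have h2 : a ^ m = a ^ n := hmn
      rw [← h2] at h1
      have h3 : a ^ m * 1 = a ^ m * a ^ (m - n) := by rw [mul_one]; exact h1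
      exact (mul_left_cancel₀ (pow_ne_zero m h0) h3).symm
  refine (Set.infinite_range_of_injective hinj) (hfin.subset ?_)
  rintro _ ⟨n, rfl⟩
  show logHeight₁ (a ^ n) ≤ 0
  rw [logHeight₁_pow, ← h, mul_zero]

theorem two_forms (v0 : InfinitePlace K) (a : K) (hv0 : v0 a = 1)
    (ha : ∀ n : ℕ, 0 < n → a ^ n ≠ 1) (ε : ℝ) (hε : 0 < ε) :
    ∀ᶠ t : ℕ in atTop, -((v0.mult : ℝ) * Real.log (v0 (a ^ t - 1))) ≤ ε * t := by
  classical
  have ha0 : a ≠ 0 := by
    rintro rfl
    rw [map_zero] at hv0
    exact zero_ne_one hv0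
  have hH := height_pos a ha0 ha
  set H := logHeight₁ a with hHdef
  have hht : ∀ t : ℕ, logHeight ![a ^ t, (1 : K)] = t * H := fun t => by
    rw [← logHeight₁_eq_logHeight, logHeight₁_pow]
  set T : Finset (HeightOneSpectrum (𝓞 K)) := (fv_support_finite ha0).toFinset with hT
  have hTv : ∀ v, v ∉ T → Pool.Agent.W180.OP.fv v a = 1 := by
    intro v hv
    by_contra hne
    exact hv ((Set.Finite.mem_toFinset _).2 hne)
  set S : Finset (Pl K) := Finset.univ.disjSum T with hS
  let B : Pl K → Fin 2 → Fin 2 → K := fun v =>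
    if v = Sum.inl v0 then ![![1, -1], ![0, 1]] else ![![1, 0], ![0, 1]]
  have key := Pool.Agent.N750.schSame (K := K) (atTop : Filter ℕ) (n := 2) (by norm_num) S B
    (by
      intro v _
      show (Matrix.of (if v = Sum.inl v0 then ![![1, -1], ![0, 1]] else ![![1, 0], ![0, 1]])).det ≠ 0
      split_ifs
      · rw [Matrix.det_fin_two]
        simp
      · rw [Matrix.det_fin_two]
        simp)
    (fun t => ![a ^ t, 1])
    (by
      simp only [hht]
      exact tendsto_natCast_atTop_atTop.atTop_mul_const hH)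
    (by
      intro d hd
      by_cases hd0 : d 0 = 0
      · refine Eventually.of_forall fun t => ?_
        have hd1 : d 1 ≠ 0 := by
          intro h1
          apply hd
          funext j
          fin_cases j
          · exact hd0
          · exact h1
        simpa [Fin.sum_univ_two, hd0] using hd1
      · by_cases hex : ∃ s : ℕ, ∑ j, d j * (![a ^ s, 1] : Fin 2 → K) j = 0
        · obtain ⟨s, hs⟩ := hex
          filter_upwards [eventually_gt_atTop s] with t ht h0
          apply ha (t - s) (by omega)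
          simp only [Fin.sum_univ_two, Matrix.cons_val_zero, Matrix.cons_val_one, mul_one] at hs h0
          have h1 : d 0 * a ^ t = d 0 * a ^ s := by linear_combination h0 - hs
          have h2 : a ^ t = a ^ s := mul_left_cancel₀ hd0 h1
          have h3 : a ^ t = a ^ s * a ^ (t - s) := by rw [← pow_add]; congr 1; omega
          have h4 : a ^ s * a ^ (t - s) = a ^ s * 1 := by rw [mul_one, ← h3, h2]
          exact mul_left_cancel₀ (pow_ne_zero s ha0) h4
        · push Not at hex
          exact Eventually.of_forall hex)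
    (ε / H) (by positivity)
  filter_upwards [key, eventually_gt_atTop 0] with t ht ht0
  rw [hht] at ht
  -- the left hand side
  have hx0 : (![a ^ t, (1 : K)] : Fin 2 → K) ≠ 0 := by
    intro h
    have := congrFun h 1
    simp at this
  have hsum := Pool.Agent.R405.logHeight_sum (![a ^ t, (1 : K)] : Fin 2 → K) hx0 T (by
    intro v hv
    have h1 := hTv v hv
    unfold nrm
    have h2 : ∀ j : Fin 2, Pool.Agent.W180.OP.fv v ((![a ^ t, (1 : K)] : Fin 2 → K) j) = 1 := by
      intro j
      fin_cases j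
      · show Pool.Agent.W180.OP.fv v (a ^ t) = 1
        rw [map_pow, h1, one_pow]
      · show Pool.Agent.W180.OP.fv v 1 = 1
        rw [map_one]
    simp only [h2]
    exact ciSup_const)
  rw [hht] at hsum
  have hprod := sum_log_eq_zero a ha0 T hTv
  set N : Pl K → ℝ := fun v => Real.log (nrm (av v) (![a ^ t, (1 : K)] : Fin 2 → K)) with hN
  have hform : ∀ v : Pl K, ∑ i, (Real.log (nrm (av v) (![a ^ t, (1 : K)] : Fin 2 → K)) -
      Real.log (av v (∑ j, B v i j * (![a ^ t, (1 : K)] : Fin 2 → K) j))) =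
      2 * N v - t * Real.log (av v a) -
        (if v = Sum.inl v0 then Real.log (v0 (a ^ t - 1)) else 0) := by
    intro v
    by_cases hv : v = Sum.inl v0
    · have e1 : ∑ j, B v 0 j * (![a ^ t, (1 : K)] : Fin 2 → K) j = a ^ t - 1 := by
        simp [B, hv, Fin.sum_univ_two, sub_eq_add_neg]
      have e2 : ∑ j, B v 1 j * (![a ^ t, (1 : K)] : Fin 2 → K) j = 1 := by
        simp [B, hv, Fin.sum_univ_two]
      rw [Fin.sum_univ_two, e1, e2, if_pos hv, map_one, Real.log_one, hv]
      have e3 : av (Sum.inl v0) a = 1 := hv0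
      have e4 : av (Sum.inl v0) (a ^ t - 1) = v0 (a ^ t - 1) := rfl
      rw [e3, Real.log_one, e4]
      simp only [hN]
      ring
    · have e1 : ∑ j, B v 0 j * (![a ^ t, (1 : K)] : Fin 2 → K) j = a ^ t := by
        simp [B, hv, Fin.sum_univ_two]
      have e2 : ∑ j, B v 1 j * (![a ^ t, (1 : K)] : Fin 2 → K) j = 1 := by
        simp [B, hv, Fin.sum_univ_two]
      rw [Fin.sum_univ_two, e1, e2, if_neg hv, map_one, Real.log_one, map_pow, Real.log_pow]
      simp only [hN]
      ring
  have hL : ∑ v ∈ S, wt v * ∑ i, (Real.log (nrm (av v) (![a ^ t, (1 : K)] : Fin 2 → K)) -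
      Real.log (av v (∑ j, B v i j * (![a ^ t, (1 : K)] : Fin 2 → K) j))) =
      2 * (t * H) - (v0.mult : ℝ) * Real.log (v0 (a ^ t - 1)) := by
    simp only [hform]
    have e1 : ∀ v : Pl K, wt v * (2 * N v - t * Real.log (av v a) -
        (if v = Sum.inl v0 then Real.log (v0 (a ^ t - 1)) else 0)) =
        2 * (wt v * N v) - t * (wt v * Real.log (av v a)) -
        (if v = Sum.inl v0 then wt v * Real.log (v0 (a ^ t - 1)) else 0) := by
      intro v
      split_ifs <;> ring
    simp only [e1]
    rw [Finset.sum_sub_distrib, Finset.sum_sub_distrib, ← Finset.mul_sum, ← Finset.mul_sum]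
    have e2 : ∑ v ∈ S, wt v * N v = t * H := by
      rw [hsum, hS, Finset.sum_disjSum]
      congr 1
      refine Finset.sum_congr rfl fun v _ => ?_
      show 1 * _ = _
      rw [one_mul]
      rfl
    have e3 : ∑ v ∈ S, wt v * Real.log (av v a) = 0 := by
      rw [← hprod, hS, Finset.sum_disjSum]
      congr 1
      refine Finset.sum_congr rfl fun v _ => ?_
      show 1 * _ = _
      rw [one_mul]
      rfl
    have e4 : ∑ v ∈ S, (if v = Sum.inl v0 then wt v * Real.log (v0 (a ^ t - 1)) else 0) =
        (v0.mult : ℝ) * Real.log (v0 (a ^ t - 1)) := by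
      rw [Finset.sum_ite_eq' S (Sum.inl v0) (fun v => wt v * Real.log (v0 (a ^ t - 1)))]
      have hmem : (Sum.inl v0 : Pl K) ∈ S := by
        rw [hS]
        exact Finset.inl_mem_disjSum.2 (Finset.mem_univ _)
      rw [if_pos hmem]
      rfl
    rw [e2, e3, e4]
    ring
  rw [hL] at ht
  have h5 : ((2 : ℕ) + ε / H) * (t * H) = 2 * (t * H) + ε * t := by
    push_cast
    field_simp
  rw [h5] at ht
  linarith

/-- **Gelfond's lower bound.** -/
theorem gelfond_bound (g : ℂ) (hg : IsAlgebraic ℚ g) (h1 : ‖g‖ = 1)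
    (hr : ∀ n : ℕ, 0 < n → g ^ n ≠ 1) (ε : ℝ) (hε : 0 < ε) :
    ∀ᶠ n : ℕ in Filter.atTop, Real.exp (-(ε * n)) ≤ ‖g ^ n - 1‖ := by
  let K := IntermediateField.adjoin ℚ ({g} : Set ℂ)
  have hfd : FiniteDimensional ℚ K := IntermediateField.adjoin.finiteDimensional hg.isIntegral
  have hnf : NumberField K := ⟨⟩
  let a : K := ⟨g, IntermediateField.mem_adjoin_simple_self ℚ g⟩
  let φ : K →+* ℂ := K.val.toRingHom
  let v0 : InfinitePlace K := InfinitePlace.mk φ
  have hφ : ∀ n : ℕ, v0 (a ^ n - 1) = ‖g ^ n - 1‖ := by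
    intro n
    rw [InfinitePlace.apply]
    congr 1
  have ha : ∀ n : ℕ, 0 < n → a ^ n ≠ 1 := by
    intro n hn h
    apply hr n hn
    have := congrArg (fun z : K => (z : ℂ)) h
    simpa [a] using this
  have hv0 : v0 a = 1 := by
    rw [InfinitePlace.apply]
    exact h1
  filter_upwards [two_forms v0 a hv0 ha ε hε, eventually_gt_atTop 0] with n hn hn0
  rw [hφ] at hn
  have hpos : 0 < ‖g ^ n - 1‖ := norm_pos_iff.2 (sub_ne_zero.2 (hr n hn0))
  have hm : (1 : ℝ) ≤ v0.mult := by exact_mod_cast Nat.one_le_iff_ne_zero.2 v0.mult_ne_zero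
  rw [← Real.le_log_iff_exp_le hpos]
  have hεn : 0 ≤ ε * n := by positivity
  by_cases hs : 0 ≤ Real.log ‖g ^ n - 1‖
  · linarith
  · push Not at hs
    nlinarith

end Pool.Agent.T9h89.GB
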