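import Mathlib
import Pool.Agent.T9h89.GB.GB

/-!
Values of an integer polynomial at the roots of unity of order dividing `n`: a non-zero value is
larger than `exp (-ε n)` for all large `n`.
-/

set_option autoImplicit false

open Finset Filter Topology Polynomial

namespace Pool.Agent.T9h89.GB

theorem nexp (δ c : ℝ) (hδ : 0 < δ) (hc : 0 < c) :
    ∀ᶠ n : ℕ in atTop, (n : ℝ) * Real.exp (-(δ * n)) ≤ c := by
  have h1 := Real.tendsto_pow_mul_exp_neg_atTop_nhds_zero 1
  have h2 : Tendsto (fun n : ℕ => δ * (n : ℝ)) atTop atTop :=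
    tendsto_natCast_atTop_atTop.const_mul_atTop hδ
  have h3 := (h1.comp h2).eventually (gt_mem_nhds (show (0 : ℝ) < δ * c by positivity))
  filter_upwards [h3] with n hn
  simp only [Function.comp_apply, pow_one] at hn
  have h4 : δ * ((n : ℝ) * Real.exp (-(δ * n))) < δ * c := by
    rw [← mul_assoc]
    exact hn
  exact (lt_of_mul_lt_mul_left h4 hδ.le).le

theorem pow_sub_pow_le (a b : ℂ) (ha : ‖a‖ = 1) (hb : ‖b‖ = 1) (n : ℕ) :
    ‖a ^ n - b ^ n‖ ≤ n * ‖a - b‖ := by
  induction n with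
  | zero => simp
  | succ n ih =>
    have h1 : a ^ (n + 1) - b ^ (n + 1) = a * (a ^ n - b ^ n) + (a - b) * b ^ n := by ring
    rw [h1]
    refine (norm_add_le _ _).trans ?_
    rw [norm_mul, norm_mul, norm_pow, ha, hb, one_pow, one_mul, mul_one]
    push_cast
    linarith

theorem root_dist (w : ℂ) (k : ℕ) (hk : 0 < k) (hw : w ^ k = 1) (h1 : w ≠ 1) :
    1 / (k : ℝ) ≤ ‖w - 1‖ := by
  have hn : ‖w‖ = 1 := Complex.norm_eq_one_of_pow_eq_one hw hk.ne'
  have hs : ∑ j ∈ range k, w ^ j = 0 := by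
    have h := mul_geom_sum w k
    rw [hw, sub_self] at h
    exact (mul_eq_zero.1 h).resolve_left (sub_ne_zero.2 h1)
  have h2 : (k : ℂ) = ∑ j ∈ range k, (1 - w ^ j) := by
    rw [Finset.sum_sub_distrib, hs]
    simp
  have h3 : (k : ℝ) ≤ ∑ j ∈ range k, (k : ℝ) * ‖w - 1‖ := by
    calc (k : ℝ) = ‖(k : ℂ)‖ := by simp
      _ = ‖∑ j ∈ range k, (1 - w ^ j)‖ := by rw [← h2]
      _ ≤ ∑ j ∈ range k, ‖1 - w ^ j‖ := norm_sum_le _ _
      _ ≤ _ := by
        refine Finset.sum_le_sum fun j hj => ?_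
        have h4 := pow_sub_pow_le w 1 hn (by simp) j
        rw [one_pow] at h4
        rw [norm_sub_rev]
        refine h4.trans ?_
        have h5 : (j : ℝ) ≤ k := by exact_mod_cast (Finset.mem_range.1 hj).le
        exact mul_le_mul_of_nonneg_right h5 (norm_nonneg _)
  rw [Finset.sum_const, Finset.card_range, nsmul_eq_mul] at h3
  have hk' : (0 : ℝ) < k := by exact_mod_cast hk
  rw [div_le_iff₀ hk']
  have h6 : (k : ℝ) * 1 ≤ k * (‖w - 1‖ * k) := by
    rw [mul_one]
    linarith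
  exact le_of_mul_le_mul_left h6 hk'

theorem one_root (γ : ℂ) (hγ : IsAlgebraic ℚ γ) (δ : ℝ) (hδ : 0 < δ) :
    ∀ᶠ n : ℕ in atTop, ∀ z : ℂ, z ^ n = 1 → z ≠ γ → Real.exp (-(δ * n)) ≤ ‖z - γ‖ := by
  by_cases h1 : ‖γ‖ = 1
  · by_cases hr : ∀ n : ℕ, 0 < n → γ ^ n ≠ 1
    · filter_upwards [gelfond_bound γ hγ h1 hr (δ / 2) (by positivity),
        nexp (δ / 2) 1 (by positivity) one_pos, eventually_gt_atTop 0] with n hg hn hn0 z hz _
      have hzn : ‖z‖ = 1 := Complex.norm_eq_one_of_pow_eq_one hz hn0.ne'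
      have h2 := pow_sub_pow_le γ z h1 hzn n
      rw [hz, norm_sub_rev γ z] at h2
      have hn' : (0 : ℝ) < n := by exact_mod_cast hn0
      have h3 : Real.exp (-(δ * n)) = Real.exp (-(δ / 2 * n)) * Real.exp (-(δ / 2 * n)) := by
        rw [← Real.exp_add]
        congr 1
        ring
      have he := Real.exp_pos (-(δ / 2 * n))
      have h4 : (n : ℝ) * Real.exp (-(δ * n)) ≤ n * ‖z - γ‖ := by
        calc (n : ℝ) * Real.exp (-(δ * n))
            = ((n : ℝ) * Real.exp (-(δ / 2 * n))) * Real.exp (-(δ / 2 * n)) := by rw [h3]; ring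
          _ ≤ 1 * Real.exp (-(δ / 2 * n)) := mul_le_mul_of_nonneg_right hn he.le
          _ = Real.exp (-(δ / 2 * n)) := one_mul _
          _ ≤ ‖γ ^ n - 1‖ := hg
          _ ≤ _ := h2
      exact le_of_mul_le_mul_left h4 hn'
    · push Not at hr
      obtain ⟨m, hm, hγm⟩ := hr
      have hm' : (0 : ℝ) < m := by exact_mod_cast hm
      have hγ0 : γ ≠ 0 := by
        rintro rfl
        simp at h1
      filter_upwards [nexp δ (1 / m) hδ (by positivity), eventually_gt_atTop 0] with n hn hn0 z hz hne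
      have hn' : (0 : ℝ) < n := by exact_mod_cast hn0
      have hw : (z / γ) ^ (n * m) = 1 := by
        rw [div_pow, pow_mul z, hz, one_pow, mul_comm n m, pow_mul γ, hγm, one_pow, div_one]
      have hw1 : z / γ ≠ 1 := by
        intro h
        exact hne ((div_eq_one_iff_eq hγ0).1 h)
      have h2 := root_dist (z / γ) (n * m) (Nat.mul_pos hn0 hm) hw hw1
      have h3 : ‖z / γ - 1‖ = ‖z - γ‖ := by
        have h4 : z / γ - 1 = (z - γ) / γ := by
          rw [sub_div, div_self hγ0]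
        rw [h4, norm_div, h1, div_one]
      rw [h3] at h2
      refine le_trans ?_ h2
      push_cast
      rw [le_div_iff₀ (by positivity)]
      have h5 : (n : ℝ) * Real.exp (-(δ * n)) * m ≤ 1 / m * m :=
        mul_le_mul_of_nonneg_right hn hm'.le
      rw [one_div, inv_mul_cancel₀ hm'.ne'] at h5
      linarith
  · have hc : 0 < |1 - ‖γ‖| := abs_pos.2 (sub_ne_zero.2 (Ne.symm h1))
    filter_upwards [nexp δ _ hδ hc, eventually_gt_atTop 0] with n hn hn0 z hz _
    have hzn : ‖z‖ = 1 := Complex.norm_eq_one_of_pow_eq_one hz hn0.ne'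
    have h2 := abs_norm_sub_norm_le z γ
    rw [hzn] at h2
    refine le_trans ?_ (hn.trans h2)
    have hn' : (1 : ℝ) ≤ n := by exact_mod_cast hn0
    have he := Real.exp_pos (-(δ * n))
    nlinarith

theorem onevar (g : Polynomial ℤ) (hg : g ≠ 0) (ε : ℝ) (hε : 0 < ε) :
    ∀ᶠ n : ℕ in atTop, ∀ z : ℂ, z ^ n = 1 → Polynomial.aeval z g ≠ 0 →
      Real.exp (-(ε * n)) < ‖Polynomial.aeval z g‖ := by
  classical
  set G : Polynomial ℂ := g.map (algebraMap ℤ ℂ) with hG
  have hG0 : G ≠ 0 := (Polynomial.map_ne_zero_iff (algebraMap ℤ ℂ).injective_int).2 hg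
  set d : ℕ := Multiset.card G.roots with hd
  have hδ : 0 < ε / (d + 1) := by positivity
  have hev : ∀ᶠ n : ℕ in atTop, ∀ γ ∈ G.roots.toFinset, ∀ z : ℂ, z ^ n = 1 → z ≠ γ →
      Real.exp (-(ε / (d + 1) * n)) ≤ ‖z - γ‖ := by
    rw [Filter.eventually_all_finset]
    intro γ hγ
    refine one_root γ ?_ _ hδ
    rw [Multiset.mem_toFinset] at hγ
    have h0 := (Polynomial.mem_roots hG0).1 hγ
    have h1 : IsAlgebraic ℤ γ := by
      refine ⟨g, hg, ?_⟩
      have h2 : G.eval γ = 0 := h0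
      rwa [hG, Polynomial.eval_map_algebraMap] at h2
    exact (IsFractionRing.isAlgebraic_iff ℤ ℚ ℂ).1 h1
  filter_upwards [hev, eventually_gt_atTop 0] with n hn hn0 z hz hne
  have hn' : (0 : ℝ) < n := by exact_mod_cast hn0
  have h1 : Polynomial.aeval z g = G.leadingCoeff * (G.roots.map (fun γ => z - γ)).prod := by
    rw [← Polynomial.eval_map_algebraMap, ← hG]
    exact (IsAlgClosed.splits G).eval_eq_prod_roots z
  have hprod : (G.roots.map (fun γ => z - γ)).prod ≠ 0 := by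
    intro h0
    apply hne
    rw [h1, h0, mul_zero]
  have hroot : ∀ γ ∈ G.roots, z ≠ γ := by
    intro γ hγ h0
    apply hprod
    rw [Multiset.prod_eq_zero_iff, Multiset.mem_map]
    exact ⟨γ, hγ, by rw [h0, sub_self]⟩
  have hlc : 1 ≤ ‖G.leadingCoeff‖ := by
    rw [hG, Polynomial.leadingCoeff_map_of_injective (algebraMap ℤ ℂ).injective_int]
    have h2 : g.leadingCoeff ≠ 0 := Polynomial.leadingCoeff_ne_zero.2 hg
    have h3 : (1 : ℤ) ≤ |g.leadingCoeff| := Int.one_le_abs h2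
    have h4 : ‖(algebraMap ℤ ℂ) g.leadingCoeff‖ = ((|g.leadingCoeff| : ℤ) : ℝ) := by
      simp
    rw [h4]
    exact_mod_cast h3
  have hle : Real.exp (-(ε / (d + 1) * n)) ^ d ≤ ‖(G.roots.map (fun γ => z - γ)).prod‖ := by
    have h2 : ‖(G.roots.map (fun γ => z - γ)).prod‖ =
        (G.roots.map (fun γ => ‖z - γ‖)).prod := by
      have h3 := map_multiset_prod (normHom : ℂ →*₀ ℝ) (G.roots.map (fun γ => z - γ))
      rw [Multiset.map_map] at h3
      exact h3
    rw [h2]
    have h4 : Real.exp (-(ε / (d + 1) * n)) ^ d =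
        (G.roots.map (fun _ => Real.exp (-(ε / (d + 1) * n)))).prod := by
      rw [Multiset.map_const', Multiset.prod_replicate]
    rw [h4]
    refine Multiset.prod_map_le_prod_map₀ _ _ (fun γ _ => (Real.exp_pos _).le) fun γ hγ => ?_
    exact hn γ (Multiset.mem_toFinset.2 hγ) z hz (hroot γ hγ)
  have hlt : Real.exp (-(ε * n)) < Real.exp (-(ε / (d + 1) * n)) ^ d := by
    rw [← Real.exp_nat_mul, Real.exp_lt_exp]
    have hd1 : (0 : ℝ) < d + 1 := by positivity
    have h5 : (d : ℝ) * -(ε / (d + 1) * n) = -(ε * n) * (d / (d + 1)) := by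
      field_simp
    rw [h5]
    have h6 : (d : ℝ) / (d + 1) < 1 := by
      rw [div_lt_one hd1]
      linarith
    have h7 : 0 < ε * n := by positivity
    nlinarith
  rw [h1, norm_mul]
  calc Real.exp (-(ε * n)) < Real.exp (-(ε / (d + 1) * n)) ^ d := hlt
    _ ≤ ‖(G.roots.map (fun γ => z - γ)).prod‖ := hle
    _ ≤ ‖G.leadingCoeff‖ * ‖(G.roots.map (fun γ => z - γ)).prod‖ :=
      le_mul_of_one_le_left (norm_nonneg _) hlc

end Pool.Agent.T9h89.GB
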